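import Mathlib

set_option autoImplicit false

/-! General topology for the simple connectivity of `X`. -/

namespace Pool.Agent.D0H70.HT

open Topology unitInterval

/-- The map `f` kills the loops at `a`. -/
def K {A X : Type} [TopologicalSpace A] [TopologicalSpace X] (f : C(A, X)) (a : A) : Prop :=
  ∀ γ : Path a a, (γ.map f.continuous).Homotopic (Path.refl (f a))

theorem K_prod {A B X : Type} [TopologicalSpace A] [TopologicalSpace B] [TopologicalSpace X]
    (f : C(A × B, X)) (a : A) (b : B)
    (h1 : K (f.comp ((ContinuousMap.id A).prodMk (ContinuousMap.const A b))) a)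
    (h2 : K (f.comp ((ContinuousMap.const B a).prodMk (ContinuousMap.id B))) b) :
    K f (a, b) := by
  intro γ
  let γ₁ : Path a a := γ.map continuous_fst
  let γ₂ : Path b b := γ.map continuous_snd
  have e : γ = γ₁.prod γ₂ := by
    ext t <;> rfl
  have e1 : (γ₁.prod γ₂).Homotopic ((γ₁.trans (Path.refl a)).prod ((Path.refl b).trans γ₂)) := by
    refine ⟨Path.Homotopic.prodHomotopy ?_ ?_⟩
    · exact (Path.Homotopy.transRefl γ₁).symm
    · exact (Path.Homotopy.reflTrans γ₂).symm
  have e2 : (γ₁.trans (Path.refl a)).prod ((Path.refl b).trans γ₂) =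
      (γ₁.prod (Path.refl b)).trans ((Path.refl a).prod γ₂) :=
    (Path.trans_prod_eq_prod_trans _ _ _ _).symm
  rw [e]
  have e3 := e1.map f
  rw [e2, Path.map_trans] at e3
  have e4 : (γ₁.prod (Path.refl b)).map f.continuous = γ₁.map (f.comp ((ContinuousMap.id A).prodMk
      (ContinuousMap.const A b))).continuous := by
    ext t
    rfl
  have e5 : ((Path.refl a).prod γ₂).map f.continuous = γ₂.map (f.comp ((ContinuousMap.const B a).prodMk
      (ContinuousMap.id B))).continuous := by
    ext t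
    rfl
  rw [e4, e5] at e3
  have e6 := (h1 γ₁).hcomp (h2 γ₂)
  have e7 : ((Path.refl (f (a, b))).trans (Path.refl (f (a, b)))) = Path.refl (f (a, b)) :=
    Path.refl_trans_refl
  have e8 : ((Path.refl (f (a, b))).trans (Path.refl (f (a, b)))).Homotopic
      (Path.refl (f (a, b))) := by
    rw [e7]
  exact e3.trans (e6.trans e8)

theorem simply_of_base {Y : Type} [TopologicalSpace Y] [PathConnectedSpace Y] (y₀ : Y)
    (h : ∀ γ : Path y₀ y₀, γ.Homotopic (Path.refl y₀)) : SimplyConnectedSpace Y := by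
  rw [simply_connected_iff_loops_nullhomotopic]
  refine ⟨inferInstance, fun x γ => ?_⟩
  have p : Path y₀ x := (PathConnectedSpace.joined y₀ x).somePath
  have h1 := h ((p.trans γ).trans p.symm)
  rw [← Path.Homotopic.Quotient.eq] at h1 ⊢
  have h2 : Path.Homotopic.Quotient.mk γ = (Path.Homotopic.Quotient.mk p).symm.trans
      ((Path.Homotopic.Quotient.mk ((p.trans γ).trans p.symm)).trans (Path.Homotopic.Quotient.mk p)) := by
    rw [Path.Homotopic.Quotient.mk_trans, Path.Homotopic.Quotient.mk_trans,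
      Path.Homotopic.Quotient.mk_symm, Path.Homotopic.Quotient.trans_assoc,
      Path.Homotopic.Quotient.symm_trans, Path.Homotopic.Quotient.trans_refl,
      ← Path.Homotopic.Quotient.trans_assoc, Path.Homotopic.Quotient.symm_trans,
      Path.Homotopic.Quotient.refl_trans]
  rw [h2, h1]
  simp

/-- A quotient map by an equation `w ^ 2 = g u`. -/
theorem quot {B : Type} [TopologicalSpace B] [T2Space B] [WeaklyLocallyCompactSpace B]
    (g : B → ℂ) (hg : Continuous g) :
    IsQuotientMap (fun p : {p : B × ℂ // p.2 ^ 2 = g p.1} => p.1.1) := by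
  have hcl : IsClosed {p : B × ℂ | p.2 ^ 2 = g p.1} :=
    isClosed_eq (by fun_prop) (by fun_prop)
  have hcont : Continuous (fun p : {p : B × ℂ // p.2 ^ 2 = g p.1} => p.1.1) := by fun_prop
  have hprop : IsProperMap (fun p : {p : B × ℂ // p.2 ^ 2 = g p.1} => p.1.1) := by
    rw [isProperMap_iff_isCompact_preimage]
    refine ⟨hcont, fun {S} hS => ?_⟩
    obtain ⟨C, hC⟩ := hS.exists_bound_of_continuousOn hg.continuousOn
    have h1 : (fun p : {p : B × ℂ // p.2 ^ 2 = g p.1} => p.1.1) ⁻¹' S =
        Subtype.val ⁻¹' (S ×ˢ Metric.closedBall (0 : ℂ) (C + 1)) := by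
      ext p
      simp only [Set.mem_preimage, Set.mem_prod, Metric.mem_closedBall, dist_zero_right]
      refine ⟨fun h => ⟨h, ?_⟩, fun h => h.1⟩
      have h2 := hC _ h
      rw [← p.2, norm_pow] at h2
      nlinarith [norm_nonneg p.1.2]
    rw [h1]
    exact (hcl.isClosedEmbedding_subtypeVal).isCompact_preimage
      (hS.prod (isCompact_closedBall 0 (C + 1)))
  refine hprop.isClosedMap.isQuotientMap hcont fun u => ?_
  obtain ⟨s, hs⟩ := IsAlgClosed.exists_pow_nat_eq (g u) (n := 2) (by norm_num)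
  exact ⟨⟨(u, s), hs⟩, rfl⟩

/-- Maps on the double cover `w ^ 2 = g u` which are invariant under `w ↦ - w` kill loops. -/
theorem K_double {B X : Type} [TopologicalSpace B] [T2Space B] [WeaklyLocallyCompactSpace B]
    [SimplyConnectedSpace B] [TopologicalSpace X]
    (g : B → ℂ) (hg : Continuous g) (f : C({p : B × ℂ // p.2 ^ 2 = g p.1}, X))
    (hf : ∀ p q : {p : B × ℂ // p.2 ^ 2 = g p.1}, q.1.1 = p.1.1 → q.1.2 = - p.1.2 → f p = f q)
    (a : {p : B × ℂ // p.2 ^ 2 = g p.1}) : K f a := by
  have hq := quot g hg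
  have hs : ∀ u : B, ∃ s : ℂ, s ^ 2 = g u := fun u =>
    IsAlgClosed.exists_pow_nat_eq (g u) (n := 2) (by norm_num)
  choose s hs using hs
  let h : B → X := fun u => f ⟨(u, s u), hs u⟩
  have hh : ∀ p : {p : B × ℂ // p.2 ^ 2 = g p.1}, h p.1.1 = f p := by
    intro p
    have h1 : (s p.1.1) ^ 2 = p.1.2 ^ 2 := by rw [hs, p.2]
    rcases sq_eq_sq_iff_eq_or_eq_neg.mp h1 with h2 | h2
    · exact congrArg f (Subtype.ext (Prod.ext rfl h2))
    · exact (hf p ⟨(p.1.1, s p.1.1), hs p.1.1⟩ rfl h2).symm
  have hc : Continuous h := by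
    rw [hq.continuous_iff]
    have : (h ∘ fun p : {p : B × ℂ // p.2 ^ 2 = g p.1} => p.1.1) = f := funext hh
    rw [this]
    exact f.continuous
  intro γ
  let γ' : Path a.1.1 a.1.1 := γ.map hq.continuous
  have h3 : γ'.Homotopic (Path.refl _) := SimplyConnectedSpace.paths_homotopic _ _
  have h4 := h3.map ⟨h, hc⟩
  have h5 : γ.map f.continuous = (γ'.map hc).cast (hh a).symm (hh a).symm := by
    ext t
    exact (hh (γ t)).symm
  have h6 : Path.refl (f a) = ((Path.refl a.1.1).map hc).cast (hh a).symm (hh a).symm := by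
    ext t
    exact (hh a).symm
  rw [h5, h6]
  exact h4.pathCast _ _

end Pool.Agent.D0H70.HT
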