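import Pool.Agent.D0H90.HT.Stm

set_option autoImplicit false

open MvPolynomial

namespace Pool.Agent.D0H70.HT

open Pool.Agent.D0H90.HT

theorem basis_of_pieces {H : Type} [Ring H] [Algebra ℂ H] [Module.Finite ℂ H]
    (piece : ℕ × ℕ × ℕ → Submodule ℂ H) (hint : DirectSum.IsInternal piece) (n : ℕ)
    (idx : Fin n → ℕ × ℕ × ℕ) (hinj : Function.Injective idx)
    (h1 : ∀ i, Module.finrank ℂ (piece (idx i)) = 1)
    (h0 : ∀ a, (∀ i, a ≠ idx i) → Module.finrank ℂ (piece a) = 0)
    (v : Fin n → H) (hv : ∀ i, v i ∈ piece (idx i)) (hv0 : ∀ i, v i ≠ 0) :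
    LinearIndependent ℂ v ∧ ⊤ ≤ Submodule.span ℂ (Set.range v) := by
  constructor
  · have h2 : iSupIndep (piece ∘ idx) := hint.submodule_iSupIndep.comp hinj
    exact h2.linearIndependent (piece ∘ idx) hv hv0
  · rw [← hint.submodule_iSup_eq_top]
    refine iSup_le fun a => ?_
    by_cases ha : ∃ i, a = idx i
    · obtain ⟨i, rfl⟩ := ha
      intro x hx
      have h3 := (finrank_eq_one_iff_of_nonzero' (⟨v i, hv i⟩ : piece (idx i))
        (fun h => hv0 i (congrArg Subtype.val h))).mp (h1 i) ⟨x, hx⟩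
      obtain ⟨c, hc⟩ := h3
      have h4 : c • v i = x := congrArg Subtype.val hc
      rw [← h4]
      exact Submodule.smul_mem _ _ (Submodule.subset_span ⟨i, rfl⟩)
    · push Not at ha
      have h3 := h0 a ha
      rw [Submodule.finrank_eq_zero] at h3
      rw [h3]
      exact bot_le

theorem IsRegular.comp {S T U : AffVar} {f : S.Pts → T.Pts} {g : T.Pts → U.Pts}
    (hf : IsRegular S T f) (hg : IsRegular T U g) : IsRegular S U (g ∘ f) := by
  obtain ⟨F, hF⟩ := hf
  obtain ⟨G, hG⟩ := hg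
  refine ⟨fun i => bind₁ F (G i), fun z i => ?_⟩
  rw [Function.comp_apply, hG]
  have h1 : (f z).1 = fun j => eval z.1 (F j) := funext fun j => hF z j
  rw [h1]
  change eval (fun j => eval z.1 (F j)) (G i) = eval z.1 (bind₁ F (G i))
  generalize G i = p
  induction p using MvPolynomial.induction_on with
  | C a => simp
  | add p q hp hq => simp [hp, hq]
  | mul_X p j hp => simp [hp]

theorem pull_congr (𝓗 : MixedHodgeTheory) {S T : AffVar} {f g : S.Pts → T.Pts} (h : f = g)
    (hf : IsRegular S T f) (hg : IsRegular S T g) (x : 𝓗.H T) :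
    𝓗.pull S T f hf x = 𝓗.pull S T g hg x := by
  subst h
  rfl

theorem eq_zero_of_piece {𝓗 : MixedHodgeTheory} {S : AffVar} {a : ℕ × ℕ × ℕ}
    (h : Module.finrank ℂ (𝓗.piece S a) = 0) {x : 𝓗.H S} (hx : x ∈ 𝓗.piece S a) : x = 0 := by
  rw [Submodule.finrank_eq_zero] at h
  rw [h] at hx
  exact (Submodule.mem_bot ℂ).mp hx

theorem exists_ne {𝓗 : MixedHodgeTheory} {S : AffVar} {a : ℕ × ℕ × ℕ}
    (h : Module.finrank ℂ (𝓗.piece S a) = 1) : ∃ x ∈ 𝓗.piece S a, x ≠ 0 := by
  by_contra hcon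
  push Not at hcon
  have h1 : 𝓗.piece S a = ⊥ := by
    rw [eq_bot_iff]
    intro x hx
    exact (Submodule.mem_bot ℂ).mpr (hcon x hx)
  rw [h1] at h
  simp at h

theorem t_INVP : S_INVP := by
  intro α β hαβ 𝓗 hσ
  obtain ⟨hE, hEi⟩ := 𝓗.elliptic α β hαβ
  obtain ⟨hQ, hQi⟩ := 𝓗.sphere
  -- one is not zero
  have hC000 : Module.finrank ℂ (𝓗.piece (curve α β) (0, 0, 0)) = 1 := by rw [hE]; simp
  have hC110 : Module.finrank ℂ (𝓗.piece (curve α β) (1, 1, 0)) = 1 := by rw [hE]; simp
  have hC101 : Module.finrank ℂ (𝓗.piece (curve α β) (1, 0, 1)) = 1 := by rw [hE]; simp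
  have hQ000 : Module.finrank ℂ (𝓗.piece quadric (0, 0, 0)) = 1 := by rw [hQ]; simp
  have hQ211 : Module.finrank ℂ (𝓗.piece quadric (2, 1, 1)) = 1 := by rw [hQ]; simp
  obtain ⟨e₁, he₁, he₁0⟩ := exists_ne hC110
  obtain ⟨e₂, he₂, he₂0⟩ := exists_ne hC101
  obtain ⟨u, hu, hu0⟩ := exists_ne hQ211
  have h1C : (1 : 𝓗.H (curve α β)) ≠ 0 := by
    intro h
    apply he₁0
    rw [← one_mul e₁, h, zero_mul]
  have h1Q : (1 : 𝓗.H quadric) ≠ 0 := by
    intro h
    apply hu0
    rw [← one_mul u, h, zero_mul]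
  -- bases
  obtain ⟨liC, spC⟩ := basis_of_pieces (𝓗.piece (curve α β)) (𝓗.internal _) 3
    ![(0, 0, 0), (1, 1, 0), (1, 0, 1)] (by decide) (by
      intro i
      fin_cases i
      · exact hC000
      · exact hC110
      · exact hC101) (by
      intro a ha
      rw [hE, if_neg]
      rintro (h | h | h)
      · exact ha 0 h
      · exact ha 1 h
      · exact ha 2 h) ![1, e₁, e₂] (by
      intro i
      fin_cases i
      · exact 𝓗.one_mem _
      · exact he₁
      · exact he₂) (by
      intro i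
      fin_cases i
      · exact h1C
      · exact he₁0
      · exact he₂0)
  obtain ⟨liQ, spQ⟩ := basis_of_pieces (𝓗.piece quadric) (𝓗.internal _) 2
    ![(0, 0, 0), (2, 1, 1)] (by decide) (by
      intro i
      fin_cases i
      · exact hQ000
      · exact hQ211) (by
      intro a ha
      rw [hQ, if_neg]
      rintro (h | h)
      · exact ha 0 h
      · exact ha 1 h) ![1, u] (by
      intro i
      fin_cases i
      · exact 𝓗.one_mem _
      · exact hu) (by
      intro i
      fin_cases i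
      · exact h1Q
      · exact hu0)
  let bC := Module.Basis.mk liC spC
  let bQ := Module.Basis.mk liQ spQ
  let fC := 𝓗.pull (P α β) (curve α β) (fst _ _) (fst_regular _ _)
  let fQ := 𝓗.pull (P α β) quadric (snd _ _) (snd_regular _ _)
  let K := LinearEquiv.ofBijective _ (𝓗.kunneth (curve α β) quadric)
  let b := (bC.tensorProduct bQ).map K
  have hb : ∀ i j, b (i, j) = fC (bC i) * fQ (bQ j) := by
    intro i j
    simp only [b, Module.Basis.map_apply, Module.Basis.tensorProduct_apply]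
    rfl
  have hbC : ∀ i, bC i = (![1, e₁, e₂] : Fin 3 → 𝓗.H (curve α β)) i := fun i =>
    Module.Basis.mk_apply liC spC i
  have hbQ : ∀ i, bQ i = (![1, u] : Fin 2 → 𝓗.H quadric) i := fun i =>
    Module.Basis.mk_apply liQ spQ i
  have b00 : b (0, 0) = 1 := by
    rw [hb, hbC, hbQ]; simp
  have b10 : b (1, 0) = fC e₁ := by
    rw [hb, hbC, hbQ]; simp
  have b20 : b (2, 0) = fC e₂ := by
    rw [hb, hbC, hbQ]; simp
  have b01 : b (0, 1) = fQ u := by
    rw [hb, hbC, hbQ]; simp
  have b11 : b (1, 1) = fC e₁ * fQ u := by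
    rw [hb, hbC, hbQ]; simp
  have b21 : b (2, 1) = fC e₂ * fQ u := by
    rw [hb, hbC, hbQ]; simp
  -- types
  have tu : fQ u ∈ 𝓗.piece (P α β) (2, 1, 1) := 𝓗.pull_mem _ _ _ _ _ _ hu
  have t1 : fC e₁ ∈ 𝓗.piece (P α β) (1, 1, 0) := 𝓗.pull_mem _ _ _ _ _ _ he₁
  have t2 : fC e₂ ∈ 𝓗.piece (P α β) (1, 0, 1) := 𝓗.pull_mem _ _ _ _ _ _ he₂
  -- commutation
  have c1 : fQ u * fC e₁ = fC e₁ * fQ u := by
    rw [𝓗.comm _ _ _ _ _ tu t1]; simp
  have c2 : fQ u * fC e₂ = fC e₂ * fQ u := by
    rw [𝓗.comm _ _ _ _ _ tu t2]; simp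
  have uu : fQ u * fQ u = 0 := by
    rw [← map_mul]
    have h1 : u * u ∈ 𝓗.piece quadric (4, 2, 2) := 𝓗.mul_mem _ _ _ _ _ hu hu
    rw [eq_zero_of_piece (by rw [hQ]; simp) h1, map_zero]
  have hprod : ∀ x y : 𝓗.H (P α β), fQ u * y = y * fQ u → (x * fQ u) * (y * fQ u) = 0 := by
    intro x y h
    rw [mul_assoc, ← mul_assoc (fQ u), h, mul_assoc y, uu, mul_zero, mul_zero]
  -- the action of σ
  have sC : ∀ x, 𝓗.pull (P α β) (P α β) (σ α β) hσ (fC x) =
      fC (𝓗.pull (curve α β) (curve α β) (inv α β) (inv_regular α β) x) := by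
    intro x
    have r1 := IsRegular.comp hσ (fst_regular (curve α β) quadric)
    have r2 := IsRegular.comp (fst_regular (curve α β) quadric) (inv_regular α β)
    have e1 := 𝓗.pull_comp _ _ _ (σ α β) (fst (curve α β) quadric) hσ (fst_regular _ _) r1 x
    have e2 := 𝓗.pull_comp _ _ _ (fst (curve α β) quadric) (inv α β) (fst_regular _ _)
      (inv_regular α β) r2 x
    have e3 : (fst (curve α β) quadric) ∘ (σ α β) = (inv α β) ∘ (fst (curve α β) quadric) := rfl
    exact e1.symm.trans ((pull_congr 𝓗 e3 r1 r2 x).trans e2)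
  have sQ : ∀ x, 𝓗.pull (P α β) (P α β) (σ α β) hσ (fQ x) =
      fQ (𝓗.pull quadric quadric refl refl_regular x) := by
    intro x
    have r1 := IsRegular.comp hσ (snd_regular (curve α β) quadric)
    have r2 := IsRegular.comp (snd_regular (curve α β) quadric) refl_regular
    have e1 := 𝓗.pull_comp _ _ _ (σ α β) (snd (curve α β) quadric) hσ (snd_regular _ _) r1 x
    have e2 := 𝓗.pull_comp _ _ _ (snd (curve α β) quadric) refl (snd_regular _ _)
      refl_regular r2 x
    have e3 : (snd (curve α β) quadric) ∘ (σ α β) = refl ∘ (snd (curve α β) quadric) := rfl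
    exact e1.symm.trans ((pull_congr 𝓗 e3 r1 r2 x).trans e2)
  obtain ⟨s, hs⟩ : ∃ s, s = 𝓗.pull (P α β) (P α β) (σ α β) hσ := ⟨_, rfl⟩
  rw [← hs] at sC sQ
  have s1 : s (fC e₁) = - fC e₁ := by rw [sC, hEi 1 0 e₁ he₁, map_neg]
  have s2 : s (fC e₂) = - fC e₂ := by rw [sC, hEi 0 1 e₂ he₂, map_neg]
  have su : s (fQ u) = - fQ u := by rw [sQ, hQi u hu, map_neg]
  have sa : s (fC e₁ * fQ u) = fC e₁ * fQ u := by rw [map_mul, s1, su, neg_mul_neg]
  have sb : s (fC e₂ * fQ u) = fC e₂ * fQ u := by rw [map_mul, s2, su, neg_mul_neg]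
  refine ⟨fC e₁ * fQ u, fC e₂ * fQ u, 𝓗.mul_mem _ _ _ _ _ t1 tu, 𝓗.mul_mem _ _ _ _ _ t2 tu, ?_,
    hprod _ _ c1, hprod _ _ c2, hprod _ _ c1, hprod _ _ c2, ?_⟩
  · have h1 : (![1, fC e₁ * fQ u, fC e₂ * fQ u] : Fin 3 → 𝓗.H (P α β)) =
        b ∘ ![(0, 0), (1, 1), (2, 1)] := by
      funext i
      fin_cases i
      · exact b00.symm
      · exact b11.symm
      · exact b21.symm
    rw [h1]
    exact b.linearIndependent.comp _ (by decide)
  · intro x
    rw [← hs]
    constructor
    · intro hx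
      have h1 : x = ∑ ij, b.repr x ij • b ij := (b.sum_repr x).symm
      rw [Fintype.sum_prod_type] at h1
      simp only [Fin.sum_univ_three, Fin.sum_univ_two, b00, b10, b20, b01, b11, b21] at h1
      have h2 : s x = b.repr x (0, 0) • 1 - b.repr x (0, 1) • fQ u - b.repr x (1, 0) • fC e₁
          + b.repr x (1, 1) • (fC e₁ * fQ u) - b.repr x (2, 0) • fC e₂
          + b.repr x (2, 1) • (fC e₂ * fQ u) := by
        conv_lhs => rw [h1]
        simp only [map_add, map_smul, map_one, s1, s2, su, sa, sb, smul_neg]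
        abel
      have h3 : (2 : ℂ) • (b.repr x (0, 1) • b (0, 1) + b.repr x (1, 0) • b (1, 0)
          + b.repr x (2, 0) • b (2, 0)) = 0 := by
        have h4 : x - s x = 0 := by rw [hx, sub_self]
        rw [← h4, h2, b01, b10, b20]
        conv_rhs => lhs; rw [h1]
        rw [two_smul]
        abel
      have h5 : b.repr x (0, 1) • b (0, 1) + b.repr x (1, 0) • b (1, 0)
          + b.repr x (2, 0) • b (2, 0) = 0 := by
        rcases smul_eq_zero.mp h3 with h | h
        · norm_num at h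
        · exact h
      rw [h1]
      have h6 : b.repr x (0, 0) • (1 : 𝓗.H (P α β)) + b.repr x (0, 1) • fQ u
          + (b.repr x (1, 0) • fC e₁ + b.repr x (1, 1) • (fC e₁ * fQ u))
          + (b.repr x (2, 0) • fC e₂ + b.repr x (2, 1) • (fC e₂ * fQ u))
          = b.repr x (0, 0) • (1 : 𝓗.H (P α β)) + b.repr x (1, 1) • (fC e₁ * fQ u)
            + b.repr x (2, 1) • (fC e₂ * fQ u) := by
        rw [b01, b10, b20] at h5
        rw [← sub_eq_zero, ← h5]
        abel
      rw [h6]
      refine Submodule.add_mem _ (Submodule.add_mem _ ?_ ?_) ?_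
      · exact Submodule.smul_mem _ _ (Submodule.subset_span (by simp))
      · exact Submodule.smul_mem _ _ (Submodule.subset_span (by simp))
      · exact Submodule.smul_mem _ _ (Submodule.subset_span (by simp))
    · intro hx
      induction hx using Submodule.span_induction with
      | mem y hy =>
        rcases hy with rfl | rfl | rfl
        · exact map_one s
        · exact sa
        · exact sb
      | zero => exact map_zero s
      | add y z _ _ hy hz => rw [map_add, hy, hz]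
      | smul c y _ hy => rw [map_smul, hy]

end Pool.Agent.D0H70.HT
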