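import Pool.Agent.D0H90.HT.Stm2

set_option autoImplicit false

/-! Path connectivity of `Z` (module PC). -/

namespace Pool.Agent.D0H70.HT

open Pool.Agent.D0H90.HT unitInterval

theorem sqrt_path (hLN : S_LN) (g : unitInterval → ℂ) (hg : Continuous g) (y : ℂ)
    (hy : y ^ 2 = g 0) : ∃ s : unitInterval → ℂ, Continuous s ∧ s 0 = y ∧ ∀ t, s t ^ 2 = g t := by
  obtain ⟨v, hv, hm⟩ := hLN 1 (fun t _ _ => g t) (by fun_prop) (fun t => by
    obtain ⟨s, hs⟩ := IsAlgClosed.exists_pow_nat_eq (g t) (n := 2) (by norm_num)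
    exact ⟨fun _ => s, fun i j => by rw [← hs, pow_two]⟩)
  have h1 : ∀ t, v t 0 ^ 2 = g t := fun t => by rw [pow_two, ← hm t 0 0]
  have hc : Continuous fun t => v t 0 := (continuous_apply (0 : Fin 1)).comp hv
  have h2 : v 0 0 ^ 2 = y ^ 2 := by rw [h1, hy]
  rcases sq_eq_sq_iff_eq_or_eq_neg.mp h2 with h3 | h3
  · exact ⟨fun t => v t 0, hc, h3, h1⟩
  · exact ⟨fun t => - v t 0, hc.neg, by simp [h3], fun t => by rw [neg_sq, h1]⟩

theorem exists_root (α β : ℂ) : ∃ x : ℂ, x ^ 3 + α * x + β = 0 := by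
  obtain ⟨x, hx⟩ := IsAlgClosed.exists_root
    (Polynomial.X ^ 3 + Polynomial.C α * Polynomial.X + Polynomial.C β : Polynomial ℂ)
    (by
      have : (Polynomial.X ^ 3 + Polynomial.C α * Polynomial.X + Polynomial.C β :
        Polynomial ℂ).degree = 3 := by compute_degree!
      rw [this]
      norm_num)
  refine ⟨x, ?_⟩
  simpa [Polynomial.IsRoot] using hx

theorem pc_curve (hLN : S_LN) (α β : ℂ) : PathConnectedSpace (curve α β).Pts := by
  obtain ⟨x₀, hx₀⟩ := exists_root α β
  let e : (curve α β).Pts := ⟨(![x₀, 0] : Fin 2 → ℂ), by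
    show (0 : ℂ) ^ 2 = x₀ ^ 3 + α * x₀ + β
    rw [hx₀]
    norm_num⟩
  have key : ∀ z : (curve α β).Pts, Joined z e := by
    intro z
    have hz : z.1 (1 : Fin 2) ^ 2 = z.1 (0 : Fin 2) ^ 3 + α * z.1 (0 : Fin 2) + β := z.2
    set x := z.1 (0 : Fin 2) with hx
    set y := z.1 (1 : Fin 2) with hy
    obtain ⟨s, hs, hs0, hs1⟩ := sqrt_path hLN
      (fun t => (x + (t : ℝ) * (x₀ - x)) ^ 3 + α * (x + (t : ℝ) * (x₀ - x)) + β) (by fun_prop) y
      (by rw [hz]; simp)
    refine ⟨⟨⟨fun t => ⟨(![x + (t : ℝ) * (x₀ - x), s t] : Fin 2 → ℂ), hs1 t⟩, ?_⟩, ?_, ?_⟩⟩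
    · refine Continuous.subtype_mk ?_ _
      refine continuous_pi fun i => ?_
      change Fin 2 at i
      obtain rfl | rfl : i = 0 ∨ i = 1 := by omega
      · show Continuous fun t : unitInterval => x + (t : ℝ) * (x₀ - x)
        fun_prop
      · exact hs
    · apply Subtype.ext
      funext i
      change Fin 2 at i
      obtain rfl | rfl : i = 0 ∨ i = 1 := by omega
      · show x + ((0 : unitInterval) : ℝ) * (x₀ - x) = z.1 (0 : Fin 2)
        simp [hx]
      · exact hs0
    · apply Subtype.ext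
      funext i
      change Fin 2 at i
      obtain rfl | rfl : i = 0 ∨ i = 1 := by omega
      · show x + ((1 : unitInterval) : ℝ) * (x₀ - x) = x₀
        simp
      · show s 1 = 0
        have h := hs1 1
        have h' : s 1 ^ 2 = 0 := by
          rw [h]
          simp [hx₀]
        exact pow_eq_zero_iff (two_ne_zero) |>.mp h'
  exact ⟨⟨e⟩, fun a b => (key a).trans (key b).symm⟩

theorem pc_quadric (hLN : S_LN) : PathConnectedSpace quadric.Pts := by
  let e : quadric.Pts := ⟨(![0, 1, 0] : Fin 3 → ℂ), by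
    show (0 : ℂ) ^ 2 + 1 ^ 2 + 0 ^ 2 = 1
    norm_num⟩
  have key : ∀ z : quadric.Pts, Joined z e := by
    intro z
    have hz : z.1 (0 : Fin 3) ^ 2 + z.1 (1 : Fin 3) ^ 2 + z.1 (2 : Fin 3) ^ 2 = 1 := z.2
    set a := z.1 (0 : Fin 3) with ha
    set b := z.1 (1 : Fin 3) with hb
    set c := z.1 (2 : Fin 3) with hc
    obtain ⟨s, hs, hs0, hs1⟩ := sqrt_path hLN
      (fun t => 1 - (b + (t : ℝ) * (1 - b)) ^ 2 - (c + (t : ℝ) * (0 - c)) ^ 2) (by fun_prop) a
      (by
        simp
        linear_combination hz)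
    refine ⟨⟨⟨fun t => ⟨(![s t, b + (t : ℝ) * (1 - b), c + (t : ℝ) * (0 - c)] : Fin 3 → ℂ), ?_⟩,
      ?_⟩, ?_, ?_⟩⟩
    · show s t ^ 2 + (b + (t : ℝ) * (1 - b)) ^ 2 + (c + (t : ℝ) * (0 - c)) ^ 2 = 1
      rw [hs1]
      ring
    · refine Continuous.subtype_mk ?_ _
      refine continuous_pi fun i => ?_
      change Fin 3 at i
      obtain rfl | rfl | rfl : i = 0 ∨ i = 1 ∨ i = 2 := by omega
      · exact hs
      · show Continuous fun t : unitInterval => b + (t : ℝ) * (1 - b)
        fun_prop
      · show Continuous fun t : unitInterval => c + (t : ℝ) * (0 - c)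
        fun_prop
    · apply Subtype.ext
      funext i
      change Fin 3 at i
      obtain rfl | rfl | rfl : i = 0 ∨ i = 1 ∨ i = 2 := by omega
      · exact hs0
      · show b + ((0 : unitInterval) : ℝ) * (1 - b) = z.1 (1 : Fin 3)
        simp [hb]
      · show c + ((0 : unitInterval) : ℝ) * (0 - c) = z.1 (2 : Fin 3)
        simp [hc]
    · apply Subtype.ext
      funext i
      change Fin 3 at i
      obtain rfl | rfl | rfl : i = 0 ∨ i = 1 ∨ i = 2 := by omega
      · show s 1 = 0
        have h := hs1 1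
        have h' : s 1 ^ 2 = 0 := by
          rw [h]
          simp
        exact pow_eq_zero_iff (two_ne_zero) |>.mp h'
      · show b + ((1 : unitInterval) : ℝ) * (1 - b) = 1
        simp
      · show c + ((1 : unitInterval) : ℝ) * (0 - c) = 0
        simp
  exact ⟨⟨e⟩, fun a b => (key a).trans (key b).symm⟩

theorem continuous_pair (S T : AffVar) :
    Continuous fun p : S.Pts × T.Pts => pair S T p.1 p.2 := by
  refine Continuous.subtype_mk ?_ _
  refine continuous_pi fun i => ?_
  rcases i with i | i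
  · exact (continuous_apply i).comp (continuous_subtype_val.comp continuous_fst)
  · exact (continuous_apply i).comp (continuous_subtype_val.comp continuous_snd)

theorem continuous_fst' (S T : AffVar) : Continuous (fst S T) := by
  refine Continuous.subtype_mk ?_ _
  exact continuous_pi fun i => (continuous_apply _).comp continuous_subtype_val

theorem continuous_snd' (S T : AffVar) : Continuous (snd S T) := by
  refine Continuous.subtype_mk ?_ _
  exact continuous_pi fun i => (continuous_apply _).comp continuous_subtype_val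

theorem pair_surj (S T : AffVar) (z : (S.prod T).Pts) : pair S T (fst S T z) (snd S T z) = z := by
  apply Subtype.ext
  funext i
  rcases i with i | i <;> rfl

theorem pc_prod (S T : AffVar) (hS : PathConnectedSpace S.Pts) (hT : PathConnectedSpace T.Pts) :
    PathConnectedSpace (S.prod T).Pts := by
  have h : Function.Surjective fun p : S.Pts × T.Pts => pair S T p.1 p.2 :=
    fun z => ⟨(fst S T z, snd S T z), pair_surj S T z⟩
  have : PathConnectedSpace (S.Pts × T.Pts) := inferInstance
  exact h.pathConnectedSpace (continuous_pair S T)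

theorem t_PC (hLN : S_LN) : S_PC := by
  intro α β
  have hP := pc_prod _ _ (pc_curve hLN α β) (pc_quadric hLN)
  exact pc_prod _ _ hP hP

end Pool.Agent.D0H70.HT
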