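import Pool.Agent.D0H70.HT.Gen
import Pool.Agent.D0H70.HT.Pc

set_option autoImplicit false

/-! Simple connectivity of `X` (module SC). -/

namespace Pool.Agent.D0H70.HT

open Pool.Agent.D0H90.HT unitInterval

/-- the curve as a double cover of `ℂ` -/
abbrev Cu (α β : ℂ) : Type := {p : ℂ × ℂ // p.2 ^ 2 = p.1 ^ 3 + α * p.1 + β}

/-- the quadric as a double cover of `ℂ × ℂ` -/
abbrev Qu : Type := {p : (ℂ × ℂ) × ℂ // p.2 ^ 2 = 1 - p.1.1 ^ 2 - p.1.2 ^ 2}

/-- from the double cover to the curve -/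
def sc (α β : ℂ) (p : Cu α β) : (curve α β).Pts := ⟨(![p.1.1, p.1.2] : Fin 2 → ℂ), p.2⟩

/-- from the double cover to the quadric -/
def sq (p : Qu) : quadric.Pts := ⟨(![p.1.2, p.1.1.1, p.1.1.2] : Fin 3 → ℂ), by
  show p.1.2 ^ 2 + p.1.1.1 ^ 2 + p.1.1.2 ^ 2 = 1
  rw [p.2]
  ring⟩

/-- from the curve to the double cover -/
def rc (α β : ℂ) (z : (curve α β).Pts) : Cu α β := ⟨(z.1 (0 : Fin 2), z.1 (1 : Fin 2)), z.2⟩

/-- from the quadric to the double cover -/
def rq (z : quadric.Pts) : Qu := ⟨((z.1 (1 : Fin 3), z.1 (2 : Fin 3)), z.1 (0 : Fin 3)), by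
  have hz : z.1 (0 : Fin 3) ^ 2 + z.1 (1 : Fin 3) ^ 2 + z.1 (2 : Fin 3) ^ 2 = 1 := z.2
  show z.1 (0 : Fin 3) ^ 2 = 1 - z.1 (1 : Fin 3) ^ 2 - z.1 (2 : Fin 3) ^ 2
  linear_combination hz⟩

theorem continuous_sc (α β : ℂ) : Continuous (sc α β) := by
  refine Continuous.subtype_mk ?_ _
  refine continuous_pi fun i => ?_
  change Fin 2 at i
  obtain rfl | rfl : i = 0 ∨ i = 1 := by omega
  · exact continuous_fst.comp continuous_subtype_val
  · exact continuous_snd.comp continuous_subtype_val

theorem continuous_sq : Continuous sq := by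
  refine Continuous.subtype_mk ?_ _
  refine continuous_pi fun i => ?_
  change Fin 3 at i
  obtain rfl | rfl | rfl : i = 0 ∨ i = 1 ∨ i = 2 := by omega
  · exact continuous_snd.comp continuous_subtype_val
  · exact continuous_fst.comp (continuous_fst.comp continuous_subtype_val)
  · exact continuous_snd.comp (continuous_fst.comp continuous_subtype_val)

theorem continuous_rc (α β : ℂ) : Continuous (rc α β) := by
  refine Continuous.subtype_mk ?_ _
  exact ((continuous_apply _).comp continuous_subtype_val).prodMk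
    ((continuous_apply _).comp continuous_subtype_val)

theorem continuous_rq : Continuous rq := by
  refine Continuous.subtype_mk ?_ _
  exact (((continuous_apply _).comp continuous_subtype_val).prodMk
    ((continuous_apply _).comp continuous_subtype_val)).prodMk
    ((continuous_apply _).comp continuous_subtype_val)

theorem sc_rc (α β : ℂ) (z : (curve α β).Pts) : sc α β (rc α β z) = z := by
  apply Subtype.ext
  funext i
  change Fin 2 at i
  obtain rfl | rfl : i = 0 ∨ i = 1 := by omega
  · rfl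
  · rfl

theorem sq_rq (z : quadric.Pts) : sq (rq z) = z := by
  apply Subtype.ext
  funext i
  change Fin 3 at i
  obtain rfl | rfl | rfl : i = 0 ∨ i = 1 ∨ i = 2 := by omega
  · rfl
  · rfl
  · rfl

/-- the sign change on the curve -/
theorem inv_sc (α β : ℂ) (p q : Cu α β) (h1 : q.1.1 = p.1.1) (h2 : q.1.2 = - p.1.2) :
    inv α β (sc α β p) = sc α β q := by
  apply Subtype.ext
  funext i
  change Fin 2 at i
  obtain rfl | rfl : i = 0 ∨ i = 1 := by omega
  · exact h1.symm
  · exact h2.symm

theorem refl_sq (p q : Qu) (h1 : q.1.1 = p.1.1) (h2 : q.1.2 = - p.1.2) :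
    refl (sq p) = sq q := by
  apply Subtype.ext
  funext i
  change Fin 3 at i
  obtain rfl | rfl | rfl : i = 0 ∨ i = 1 ∨ i = 2 := by omega
  · exact h2.symm
  · exact (congrArg Prod.fst h1).symm
  · exact (congrArg Prod.snd h1).symm

/-- the parametrization of `Z` -/
def sz (α β : ℂ) (x : (Cu α β × Qu) × (Cu α β × Qu)) : (Z α β).Pts :=
  pair _ _ (pair _ _ (sc α β x.1.1) (sq x.1.2)) (pair _ _ (sc α β x.2.1) (sq x.2.2))

/-- its inverse -/
def rz (α β : ℂ) (z : (Z α β).Pts) : (Cu α β × Qu) × (Cu α β × Qu) :=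
  ((rc α β (fst _ _ (fst _ _ z)), rq (snd _ _ (fst _ _ z))),
    (rc α β (fst _ _ (snd _ _ z)), rq (snd _ _ (snd _ _ z))))

theorem continuous_sz (α β : ℂ) : Continuous (sz α β) := by
  have h1 : Continuous fun x : (Cu α β × Qu) => pair _ _ (sc α β x.1) (sq x.2) :=
    (continuous_pair _ _).comp (((continuous_sc α β).comp continuous_fst).prodMk
      (continuous_sq.comp continuous_snd))
  exact (continuous_pair _ _).comp ((h1.comp continuous_fst).prodMk (h1.comp continuous_snd))

theorem continuous_rz (α β : ℂ) : Continuous (rz α β) := by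
  have h1 : Continuous fun z : (P α β).Pts => ((rc α β (fst _ _ z), rq (snd _ _ z)) : Cu α β × Qu) :=
    ((continuous_rc α β).comp (continuous_fst' _ _)).prodMk (continuous_rq.comp (continuous_snd' _ _))
  exact (h1.comp (continuous_fst' _ _)).prodMk (h1.comp (continuous_snd' _ _))

theorem sz_rz (α β : ℂ) (z : (Z α β).Pts) : sz α β (rz α β z) = z := by
  show pair _ _ (pair _ _ (sc α β (rc α β (fst _ _ (fst _ _ z)))) (sq (rq (snd _ _ (fst _ _ z)))))
    (pair _ _ (sc α β (rc α β (fst _ _ (snd _ _ z)))) (sq (rq (snd _ _ (snd _ _ z))))) = z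
  rw [sc_rc, sc_rc, sq_rq, sq_rq]
  erw [pair_surj, pair_surj, pair_surj]

theorem rz_sz (α β : ℂ) (x : (Cu α β × Qu) × (Cu α β × Qu)) : rz α β (sz α β x) = x := rfl

theorem t_SC (hLIFT : S_LIFT) (hPC : S_PC) : S_SC := by
  intro α β
  obtain ⟨x₀, hx₀⟩ := exists_root α β
  let e : Cu α β := ⟨(x₀, 0), by simp [hx₀]⟩
  let o : Qu := ⟨((1, 0), 0), by simp⟩
  let b : (Cu α β × Qu) × (Cu α β × Qu) := ((e, o), (e, o))
  have he : inv α β (sc α β e) = sc α β e := inv_sc α β e e rfl (by simp [e])
  have ho : refl (sq o) = sq o := refl_sq o o rfl (by simp [o])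
  -- the fixed point
  have h1 : σ₁ α β (sz α β b) = sz α β b := by
    show pair _ _ (pair _ _ (inv α β (sc α β e)) (refl (sq o)))
      (pair _ _ (sc α β e) (sq o)) = _
    rw [he, ho]
    rfl
  have h2 : σ₂ α β (sz α β b) = sz α β b := by
    show pair _ _ (pair _ _ (sc α β e) (sq o))
      (pair _ _ (inv α β (sc α β e)) (refl (sq o))) = _
    rw [he, ho]
    rfl
  have h3 : τ α β (sz α β b) = sz α β b := rfl
  have hfix : ∀ g ∈ Γ α β, g (sz α β b) = sz α β b := by
    intro g hg
    have h4 : Γ α β ≤ MulAction.stabilizer (Equiv.Perm (Z α β).Pts) (sz α β b) := by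
      refine (Subgroup.closure_le _).2 ?_
      rintro s (rfl | rfl | rfl)
      · exact h1
      · exact h2
      · exact h3
    exact h4 hg
  have m1 : σ₁ α β ∈ Γ α β := Subgroup.subset_closure (Or.inl rfl)
  have m2 : σ₂ α β ∈ Γ α β := Subgroup.subset_closure (Or.inr (Or.inl rfl))
  let f : C((Cu α β × Qu) × (Cu α β × Qu), (Xvar α β).Points) :=
    ⟨fun x => proj α β (sz α β x), (continuous_proj α β).comp (continuous_sz α β)⟩
  have hgC : Continuous fun u : ℂ => u ^ 3 + α * u + β := by fun_prop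
  have hgQ : Continuous fun u : ℂ × ℂ => 1 - u.1 ^ 2 - u.2 ^ 2 := by fun_prop
  have hK : K f b := by
    apply K_prod f (e, o) (e, o)
    · apply K_prod _ e o
      · refine K_double _ hgC _ (fun p q hq1 hq2 => ?_) e
        show proj α β (sz α β ((p, o), (e, o))) = proj α β (sz α β ((q, o), (e, o)))
        rw [proj_eq_iff]
        refine ⟨σ₁ α β, m1, ?_⟩
        show pair _ _ (pair _ _ (inv α β (sc α β q)) (refl (sq o))) (pair _ _ (sc α β e) (sq o)) = _
        rw [inv_sc α β q p hq1.symm (by rw [hq2, neg_neg]), ho]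
        rfl
      · refine K_double _ hgQ _ (fun p q hq1 hq2 => ?_) o
        show proj α β (sz α β ((e, p), (e, o))) = proj α β (sz α β ((e, q), (e, o)))
        rw [proj_eq_iff]
        refine ⟨σ₁ α β, m1, ?_⟩
        show pair _ _ (pair _ _ (inv α β (sc α β e)) (refl (sq q))) (pair _ _ (sc α β e) (sq o)) = _
        rw [refl_sq q p hq1.symm (by rw [hq2, neg_neg]), he]
        rfl
    · apply K_prod _ e o
      · refine K_double _ hgC _ (fun p q hq1 hq2 => ?_) e
        show proj α β (sz α β ((e, o), (p, o))) = proj α β (sz α β ((e, o), (q, o)))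
        rw [proj_eq_iff]
        refine ⟨σ₂ α β, m2, ?_⟩
        show pair _ _ (pair _ _ (sc α β e) (sq o)) (pair _ _ (inv α β (sc α β q)) (refl (sq o))) = _
        rw [inv_sc α β q p hq1.symm (by rw [hq2, neg_neg]), ho]
        rfl
      · refine K_double _ hgQ _ (fun p q hq1 hq2 => ?_) o
        show proj α β (sz α β ((e, o), (e, p))) = proj α β (sz α β ((e, o), (e, q)))
        rw [proj_eq_iff]
        refine ⟨σ₂ α β, m2, ?_⟩
        show pair _ _ (pair _ _ (sc α β e) (sq o)) (pair _ _ (inv α β (sc α β e)) (refl (sq q))) = _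
        rw [refl_sq q p hq1.symm (by rw [hq2, neg_neg]), he]
        rfl
  have hpz : PathConnectedSpace (Z α β).Pts := hPC α β
  have hpx : PathConnectedSpace (Xvar α β).Points :=
    (proj_surjective α β).pathConnectedSpace (continuous_proj α β)
  refine simply_of_base (f b) fun γ => ?_
  obtain ⟨z, hz⟩ := hLIFT α β ⟨γ, γ.continuous⟩
  have hz' : ∀ t, proj α β (z t) = γ t := hz
  have hend : ∀ t, γ t = f b → z t = sz α β b := by
    intro t ht
    have h4 : proj α β (z t) = proj α β (sz α β b) := (hz' t).trans ht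
    obtain ⟨g, hg, hgz⟩ := (proj_eq_iff α β _ _).1 h4
    rw [← hgz, hfix g hg]
  have hz0 : z 0 = sz α β b := hend 0 γ.source
  have hz1 : z 1 = sz α β b := hend 1 γ.target
  let γ' : Path b b := ⟨⟨fun t => rz α β (z t), (continuous_rz α β).comp z.continuous⟩,
    by show rz α β (z 0) = b; rw [hz0]; rfl, by show rz α β (z 1) = b; rw [hz1]; rfl⟩
  have h5 := hK γ'
  have h6 : γ'.map f.continuous = γ := by
    ext t
    show proj α β (sz α β (rz α β (z t))) = γ t
    rw [sz_rz, hz']
  rw [h6] at h5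
  exact h5

end Pool.Agent.D0H70.HT
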